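import Pool.Agent.Helper79.HH.Count

/-!
# MP_6369ef_ag: for most fibres of a family the Mumford-Tate group contains the monodromy group

Definitions are in `Pool.Agent.Helper79.HH.Stat` (`hodgePart`, `form`, `IsPolarized`, `IsHodgeOp`, `onePlus`, `tangent`,
`cx`), `Pool.Agent.Helper79.HH.StatM` (`Element`, `Element.Next`, `Mono`, `MTContains`), `Pool.Agent.Helper79.HH.Count`
(`SmallMT`), `Pool.Agent.Helper79.HG.StatW` (`DeepW`), `Pool.Agent.Helper79.BB.StatM` (`FunctionFormsM`, `SubTensorM`,
`pd`, `IsSolutionM`, `IsPeriodM`, `IsBranchM`, `FamiliesM`), `Pool.Agent.Helper79.DD.StatU` (`Px`, `polyU`, `denU`,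
`pointU`), `Pool.Agent.Helper79.CU.StatC` (`tens`, `tpow`) and `Pool.Agent.Helper64.Per.Defs` (`Qbar`).
-/

open Matrix Pool.Agent.Helper79.BB Pool.Agent.Helper79.DD Pool.Agent.Helper79.HH Pool.Agent.Helper79.HG
  Pool.Agent.Helper64.Per

namespace Pool.Agent.Results.MP_6369ef_ag.MonodromyInMumfordTate

/-- Let `κ` be a number field, `S` a variety over `κ` with coordinates `t_1, …, t_m` and `w`, generically finite over
the `t`-space, `U` a connected open set in `ℂ^m` and `(t, w t)`, `t ∈ U`, a branch of `S`. Let `P` be the matrix of the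
periods of a basis `ω_x` of a connection `E` over `S` contained in a tensor power of a sum of Gauss-Manin connections (as in
`MP_290158_ag.AllBases`; for instance the relative cohomology in some degree of a smooth projective family over `S`), with
`ω_x` of level `lev x` in the Hodge filtration, and `ψ` a rational form which polarises the Hodge structures of weight `j` given by
`P t`, `t ∈ V`. Let `V` be a compact subset of `U`, or any set whose points `t` have distance at least
`c (min (1, |T(t)|) / (1 + |t|))^k`, `c > 0`, from the complement of `U` (`T` the denominator of the connections), with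
`det P t ≠ 0` for `t ∈ V`. Let `D ≥ 1` and `e` be natural numbers, `ω_j` a basis of `κ` over `ℚ`, and `N` a finite set
of pairs `(k, j)`, containing one of the pairs `(0, j)`. Then there are numbers `C` and `θ₀ > 0` such that for all `X ≥ 1`, of the
`(2X+1)^n`, `n = (D + 1 + m (e + 1)) [κ : ℚ] + |N|`, tuples `(F, G_1, …, G_m, G_0)` of a polynomial
`F = ∑_k (∑_j a_(k,j) ω_j) y^k` of degree at most `D`, polynomials `G_i` of this form of degree at most `e`, and
`G_0 = ∑_((k,j) ∈ N) a_(k,j) ω_j y^k`, all `a_(k,j)` integers with `|a_(k,j)| ≤ X`, at most `C X^(n - θ₀)` have a root `y` of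
`F` with `G_0(y) ≠ 0` such that the point `t = (G_1(y) / G_0(y), …, G_m(y) / G_0(y))` is in `V` and the Lie algebra of the
Mumford-Tate group of the Hodge structure at `t` does not contain the derived Lie algebra of the Lie algebra of the Zariski closure
of the monodromy group of `P` on `S`. -/
theorem result {κ : IntermediateField ℚ Qbar} [FiniteDimensional ℚ κ] {m : ℕ} (hm : 1 ≤ m)
    {F : FamiliesM κ m} {μ r : ℕ} {ι : Type} [Fintype ι] [DecidableEq ι] [Nonempty ι]
    (E : F.Sub μ r ι) {U : Set (Fin m → ℂ)} (hU : IsOpen U) (hU' : IsPreconnected U)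
    {w : (Fin m → ℂ) → ℂ} (hw : IsBranchM κ U μ w) {P : (Fin m → ℂ) → Matrix ι ι ℂ}
    (hP : E.IsPeriod U w P) {V : Set (Fin m → ℂ)}
    (hV : DeepW F.T U V ∨ IsCompact V ∧ V ⊆ U) (hdet : ∀ t ∈ V, IsUnit (P t).det)
    {lev : ι → ℤ} {j : ℤ} {ψ : Matrix ι ι ℚ} (hpol : ∀ t ∈ V, IsPolarized lev j ψ (P t))
    {J : Type} [Fintype J] (ω : Module.Basis J ℚ κ)
    {D : ℕ} (hD : 1 ≤ D) (e : ℕ) (N : Finset (ℕ × J)) (hN : ∃ j, (0, j) ∈ N) :
    ∃ C θ₀ : ℝ, 0 < θ₀ ∧ ∀ X : ℕ, 1 ≤ X → ((SmallMT ω N U V w P lev j ψ D e X).ncard : ℝ) ≤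
      C * (X : ℝ) ^ ((((D + 1 + m * (e + 1)) * Module.finrank ℚ κ + N.card : ℕ) : ℝ) - θ₀) :=
  small_count hm E hU hU' hw hP hV hdet hpol ω hD e N hN

end Pool.Agent.Results.MP_6369ef_ag.MonodromyInMumfordTate
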