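import Mathlib
import Pool.Agent.Helper88.MT.Wrap

/-!
# The Mumford-Tate group of a Hodge structure of level one with few holomorphic forms

Let the lattice `ℤ ^ r` carry a Hodge structure of weight zero with types `(1, -1)`, `(0, 0)`,
`(-1, 1)` and a compatible symmetric form (the situation of `H ^ 2 (X, ℤ(1))` modulo torsion). Let
`N` be the group of Hodge classes, `T` its orthogonal, `n` the rank of `T` and `g` the Hodge number
of type `(1, -1)`. If `T` is simple with endomorphism algebra `ℚ`, `n` is odd and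
`n > g ^ 2 + 2 g`, then the Mumford-Tate group is the full special orthogonal group of `T`.
-/

namespace Pool.Agent.Results.MP_6369ef_ag.MumfordTateGroupIsOrthogonal

open Matrix Module Pool.Agent.Helper88.MT

theorem result {r : ℕ} (H : HodgeLattice r) (hsimple : H.IsSimple) (hend : H.EndIsRat)
    (hodd : Odd H.n) (hpos : 0 < H.g) (hlarge : H.g ^ 2 + 2 * H.g < H.n) (a : GL (Fin r) ℂ) :
    a ∈ H.MTGroup ↔
      (a : Matrix (Fin r) (Fin r) ℂ)ᵀ * H.ψ.map (Int.cast : ℤ → ℂ) * a =
          H.ψ.map (Int.cast : ℤ → ℂ) ∧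
        (a : Matrix (Fin r) (Fin r) ℂ).det = 1 ∧
        ∀ v : Fin r → ℤ, H.D *ᵥ (fun i ↦ (v i : ℂ)) = 0 →
          (a : Matrix (Fin r) (Fin r) ℂ) *ᵥ (fun i ↦ (v i : ℂ)) = fun i ↦ (v i : ℂ) :=
  mtGroup_description H hsimple hend hodd hpos hlarge a

end Pool.Agent.Results.MP_6369ef_ag.MumfordTateGroupIsOrthogonal
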