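import Pool.Agent.Helper66.OTR.OrthMain

/-!
# MP_6369ef_ag: one normalizing element with an independent simple eigenvalue

`V` is a finite-dimensional space over an algebraically closed field of characteristic different
from two, with a nondegenerate symmetric form `B`. `L` is a Lie algebra of skew operators which
acts irreducibly on `V`, and `γ` is a similitude of `B`, with multiplier `c`, which normalizes `L`
(it need not be in the connected group with Lie algebra `L`). Suppose that `γ` has an eigenvalue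
`ζ` of algebraic multiplicity one, `ζ ^ 2 ≠ c`, such that for all the eigenvalues `a`, `b`, `d` of
`γ` other than `ζ` and `c / ζ` one has `ζ ^ 2 ≠ a * b` and `ζ * d ≠ a * b`. Then `L` is the whole
orthogonal Lie algebra.

For instance `γ` can be an isometry with eigenvalues `z, 1/z, 1, ..., 1`, with `z ^ 2 ≠ 1`.

In the application `V` is the transcendental part of the second `ℓ`-adic cohomology, `L` is the
Lie algebra of the `ℓ`-adic monodromy group, and `γ` is a Frobenius element at a place of good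
reduction or an element of an inertia group.
-/

namespace Pool.Agent.Results.MP_6369ef_ag.NormalizerSimpleEigenvalue

open Pool.Agent.Helper66.OTR

theorem result {K V : Type*} [Field K] [IsAlgClosed K] [AddCommGroup V] [Module K V]
    [FiniteDimensional K V] (htwo : (2 : K) ≠ 0)
    -- a nondegenerate symmetric form
    (B : LinearMap.BilinForm K V) (hnd : B.Nondegenerate) (hsymm : ∀ x y, B x y = B y x)
    -- a Lie algebra `L` of skew operators
    (L : Submodule K (Module.End K V))
    (hLie : ∀ X ∈ L, ∀ Y ∈ L, X * Y - Y * X ∈ L)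
    (hso : ∀ X ∈ L, ∀ x y, B (X x) y + B x (X y) = 0)
    -- acting irreducibly
    (hirr : ∀ W : Submodule K V, (∀ X ∈ L, ∀ w ∈ W, X w ∈ W) → W = ⊥ ∨ W = ⊤)
    -- a similitude `γ` with multiplier `c`, which normalizes `L`
    (γ : V ≃ₗ[K] V) (c : K) (hsim : ∀ x y, B (γ x) (γ y) = c * B x y)
    (hnorm : ∀ X ∈ L, (γ : V →ₗ[K] V) ∘ₗ X ∘ₗ (γ.symm : V →ₗ[K] V) ∈ L)
    -- an eigenvalue `ζ` of `γ` of algebraic multiplicity one
    (ζ : K) (hζ : Module.finrank K (Module.End.maxGenEigenspace (γ : V →ₗ[K] V) ζ) = 1)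
    (hζc : ζ ^ 2 ≠ c)
    -- the eigenvalues `a`, `b`, `d` other than `ζ` and `c / ζ`
    (hothers : ∀ a b : K, Module.End.HasEigenvalue (γ : V →ₗ[K] V) a →
      Module.End.HasEigenvalue (γ : V →ₗ[K] V) b →
      a ≠ ζ → a * ζ ≠ c → b ≠ ζ → b * ζ ≠ c →
        ζ ^ 2 ≠ a * b ∧
        ∀ d : K, Module.End.HasEigenvalue (γ : V →ₗ[K] V) d → d ≠ ζ → d * ζ ≠ c →
          ζ * d ≠ a * b) :
    ∀ X : Module.End K V, (∀ x y, B (X x) y + B x (X y) = 0) → X ∈ L := by
  have O : OSetup B L := ⟨hnd, hsymm, hLie, hirr,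
    fun X hX x y => eq_neg_of_add_eq_zero_left (hso X hX x y)⟩
  obtain ⟨l, l', P⟩ := O.exists_pair hsim hζ
  have hne : ζ ≠ c / ζ := by
    intro h
    apply hζc
    rw [pow_two]
    nth_rewrite 2 [h]
    exact mul_div_cancel₀ c P.hζ
  have hc : ∀ ν : K, ν ≠ c / ζ → ν * ζ ≠ c := by
    intro ν h h'
    exact h ((eq_div_iff P.hζ).2 h')
  intro X hX
  refine O.orth_simple htwo hnorm P hne ?_ ?_ (fun x y => eq_neg_of_add_eq_zero_left (hX x y))
  · intro a x hx hx0 h1 h2 b y hy hy0 h3 h4
    have := (hothers a b (hasEigenvalue_of_ge hx hx0) (hasEigenvalue_of_ge hy hy0) h1 (hc a h2) h3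
      (hc b h4)).1
    rwa [pow_two] at this
  · intro a x hx hx0 h1 h2 b y hy hy0 h3 h4 d z hz hz0 h5 h6
    exact (hothers a b (hasEigenvalue_of_ge hx hx0) (hasEigenvalue_of_ge hy hy0) h1 (hc a h2) h3
      (hc b h4)).2 d (hasEigenvalue_of_ge hz hz0) h5 (hc d h6)

end Pool.Agent.Results.MP_6369ef_ag.NormalizerSimpleEigenvalue
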