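import Mathlib
import Pool.Agent.Helper88.Main

/-!
# Recognising the full orthogonal Lie algebra from a Hodge operator of level one

Let `V` be a finite-dimensional vector space with a nondegenerate symmetric bilinear form over an
algebraically closed field of characteristic zero, and let `L` be an irreducible Lie algebra of
skew-adjoint operators on `V`. Suppose that `L` contains an operator `h` with `h ^ 3 = h` whose
eigenvalue `1` has multiplicity `g ≥ 1`, that `n = dim V` is odd, that `n > g ^ 2 + 2 g`, and that
either `n` and `g` are coprime or no proper ideal of `L` contains `h`. Then `L` is the Lie algebra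
of all skew-adjoint operators.
-/

namespace Pool.Agent.Results.MP_6369ef_ag.OrthogonalTripotent

open Module Pool.Agent.Helper88

attribute [local instance 100] LieRing.ofAssociativeRing

theorem result {K V : Type*} [Field K] [IsAlgClosed K] [CharZero K] [AddCommGroup V] [Module K V]
    [FiniteDimensional K V] (B : LinearMap.BilinForm K V) (hB : B.Nondegenerate)
    (hsymm : B.IsSymm)
    (L : LieSubalgebra K (Module.End K V))
    (hskew : ∀ x ∈ L, ∀ v w : V, B (x v) w = - B v (x w))
    (hirr : ∀ W : Submodule K V, (∀ x ∈ L, ∀ w ∈ W, x w ∈ W) → W = ⊥ ∨ W = ⊤)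
    (h : Module.End K V) (hL : h ∈ L) (hcube : h ^ 3 = h)
    (g : ℕ) (hg : finrank K (h.eigenspace 1) = g) (hpos : 0 < g)
    (hlarge : g ^ 2 + 2 * g < finrank K V)
    (hker : Odd (finrank K V) ∨ ∀ x ∈ L, ∃ v : V, v ≠ 0 ∧ x v = 0)
    (hgen : (∀ I : LieIdeal K L, (⟨h, hL⟩ : L) ∈ I → I = ⊤) ∨ Nat.Coprime (finrank K V) g)
    (x : Module.End K V) :
    x ∈ L ↔ ∀ v w : V, B (x v) w = - B v (x w) := by
  refine ⟨fun hx ↦ hskew x hx, fun hx ↦ ?_⟩
  subst hg
  have hVnt : Nontrivial V := by
    have : 0 < finrank K V := by omega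
    exact Module.nontrivial_of_finrank_pos this
  -- irreducibility
  have hI : LieModule.IsIrreducible K L V := by
    refine LieModule.IsIrreducible.mk fun N hN ↦ ?_
    rcases hirr N.toSubmodule (fun y hy w hw ↦ N.lie_mem (x := (⟨y, hy⟩ : L)) hw) with h1 | h1
    · exact absurd (by simpa using h1) hN
    · simpa using h1
  have hF : LieModule.IsFaithful K L V := by
    refine (LieModule.isFaithful_iff K L V).mpr ?_
    intro a b hab
    apply Subtype.ext
    exact hab
  have hB' : ∀ v, (∀ w, B v w = 0) → v = 0 := fun v hv ↦ hB.1 v hv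
  have hs : ∀ v w, B v w = B w v := fun v w ↦ hsymm.eq v w
  have hinv : ∀ (x : L) (v w : V), B ⁅x, v⁆ w = - B v ⁅x, w⁆ := fun x v w ↦ hskew x.1 x.2 v w
  set t : L := ⟨h, hL⟩ with ht
  have htE : LieModule.toEnd K L V t = h := by ext v; rfl
  have htrip : IsTripotentOn V t := by
    intro v
    have := LinearMap.congr_fun hcube v
    rw [pow_succ, pow_two, Module.End.mul_apply, Module.End.mul_apply] at this
    exact this
  have hker' : ∀ x : L, ∃ v : V, v ≠ 0 ∧ ⁅x, v⁆ = 0 := by
    intro x
    rcases hker with hodd | hker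
    · exact exists_ker_of_odd hB' hodd (y := x.1) (fun v w ↦ hskew x.1 x.2 v w)
    · exact hker x.1 x.2
  have key := exists_toEnd_eq_of_large hB' hs hinv hker' htrip ?_ (by rw [htE]; exact hpos)
    (by rw [htE]; nlinarith [hlarge]) (y := x) hx
  · obtain ⟨y, hy⟩ := key
    have : x = y.1 := by rw [← hy]; ext v; rfl
    rw [this]
    exact y.2
  · intro I J hIJ hsup htI
    rcases hgen with hgen | hcop
    · -- `I = ⊤`, so `J` is central
      have hItop := hgen I htI
      rw [LieSubmodule.eq_bot_iff]
      intro y hy
      have htr : LieAlgebra.HasTrivialRadical K L :=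
        LieAlgebra.hasTrivialRadical_of_isIrreducible_of_isFaithful K L V
          fun x ↦ trace_eq_zero_of_skew hB' (fun v w ↦ hinv x v w)
      have hc : y ∈ LieAlgebra.center K L := by
        rw [LieModule.mem_maxTrivSubmodule]
        intro z
        exact hIJ z (hItop ▸ LieSubmodule.mem_top z) y hy
      rw [LieAlgebra.center_eq_bot] at hc
      simpa using hc
    · refine eq_bot_of_coprime hB' hinv hIJ hsup htI ?_
      rw [htE]
      exact hcop

end Pool.Agent.Results.MP_6369ef_ag.OrthogonalTripotent
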